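import Mathlib
import Pool.Agent.TH841.PT.Fin2

/-!
# Tate-Shafarevich groups of the quadratic twists by the values of a polynomial at prime arguments

`E : y² = x³ + A x + B` is an elliptic curve with three integer roots, `D` an arbitrary nonzero
polynomial with integer coefficients, of any degree, and `G₀, ..., G_(r-1)` are pairwise
non-associated irreducible polynomials of positive degree (which may divide `D`). For all `s` and
`k` the sum of `(2 ^ rank * #Ш[2 ^ k] ^ (1 / k)) ^ s` over the twists of `E` by `D(t)`,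
`N < t ≤ N + M`, all `|G_i(t)|` prime, is at most `C M / (log M) ^ r`, uniformly for `|N| ≤ M ^ L`
and in `k`.
-/

set_option autoImplicit false

namespace Pool.Agent.Results.MP_788af2_nt.PrimeTwistMoments

open Finset Polynomial

open Pool.Agent.TH841.SH.D (Sha ShaTor HasDiv rk)

/-- the quadratic twist `y² = x³ + d² A x + d³ B` of `y² = x³ + A x + B` over `ℚ` by `d` -/
def Tw (A B d : ℤ) : WeierstrassCurve ℚ := ⟨0, 0, 0, ((d ^ 2 * A : ℤ) : ℚ), ((d ^ 3 * B : ℤ) : ℚ)⟩

/-- the integers `t` with `N < t ≤ N + M` and `D(t) ≠ 0` for which all the `|G i (t)|` are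
primes -/
noncomputable def Par {r : ℕ} (D : ℤ[X]) (G : Fin r → ℤ[X]) (N : ℤ) (M : ℕ) : Finset ℤ := by
  classical
  exact (Ioc N (N + M)).filter (fun t => D.eval t ≠ 0 ∧ ∀ i, ((G i).eval t).natAbs.Prime)

open Classical in
/-- **Theorem.** Let `y² = (x - e₁) (x - e₂) (x - e₃) = x³ + A x + B` be an elliptic curve with
integers `e₁`, `e₂`, `e₃` and `D ≠ 0` a polynomial with integer coefficients. Let `W_t` be the
quadratic twist of the curve by `D(t)`. Let `G₀, ..., G_(r-1)` be irreducible polynomials of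
positive degree with integer coefficients, pairwise not associated. For all `s` and `L` there is
`C` such that for all integers `M ≥ 2` and `|N| ≤ M ^ L` and the `t` with `N < t ≤ N + M`,
`D(t) ≠ 0`, for which all the `|G_i(t)|` are primes: the groups `Ш(W_t)[2 ^ k]` are finite, the sum
of `(2 ^ rank * #Ш(W_t)[2 ^ k] ^ (1 / k)) ^ s` is at most `C M / (log M) ^ r` for all `k ≥ 1`, and
at most `C M / (log M) ^ r / 2 ^ (s (n + q))` of these `t` have a twist `W_t` of rank at least `n`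
with a subgroup `(ℚ₂ / ℤ₂) ^ q` in the Tate-Shafarevich group. -/
theorem result (A B e₁ e₂ e₃ : ℤ) (hE : 4 * A ^ 3 + 27 * B ^ 2 ≠ 0)
    (he : ∀ x : ℤ, x ^ 3 + A * x + B = (x - e₁) * (x - e₂) * (x - e₃))
    (D : ℤ[X]) (hD : D ≠ 0)
    (r : ℕ) (G : Fin r → ℤ[X]) (hG : ∀ i, Irreducible (G i) ∧ 0 < (G i).natDegree)
    (hG' : ∀ i j, i ≠ j → ¬ Associated (G i) (G j)) (s L : ℕ) :
    ∃ C : ℝ, ∀ (N : ℤ) (M : ℕ), 2 ≤ M → |N| ≤ (M : ℤ) ^ L →
      (∀ t ∈ Par D G N M, ∀ k : ℕ, Finite (ShaTor (Tw A B (D.eval t)) (2 ^ k))) ∧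
      (∀ k : ℕ, 1 ≤ k → ∑ t ∈ Par D G N M, ((2 : ℝ) ^ rk (Tw A B (D.eval t)) *
        (Nat.card (ShaTor (Tw A B (D.eval t)) (2 ^ k)) : ℝ) ^ ((1 : ℝ) / k)) ^ s ≤
          C * (M / (Real.log M) ^ r)) ∧
      ∀ n q : ℕ, (((Par D G N M).filter (fun t => n ≤ rk (Tw A B (D.eval t)) ∧
        HasDiv (Tw A B (D.eval t)) q)).card : ℝ) ≤
          C * (M / (Real.log M) ^ r) / 2 ^ (s * (n + q)) := by
  obtain ⟨C, hC⟩ := Pool.Agent.TH841.PT.sha_prime Pool.Agent.TH841.PT.avh (G := G)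
    ⟨fun i => (hG i).1, fun i => (hG i).2, hG'⟩ hE he D hD s L
  refine ⟨C, fun N M hM hN => ?_⟩
  have hPar : Par D G N M =
      (Ioc N (N + M)).filter (fun t => D.eval t ≠ 0 ∧ Pool.Agent.TH841.PT.AllPr G t) := by
    unfold Par Pool.Agent.TH841.PT.AllPr
    congr
  rw [hPar]
  have hTw : ∀ d : ℤ, Tw A B d = Pool.Agent.TH841.PT.TwQ A B d := fun d => rfl
  simp only [hTw]
  obtain ⟨h1, h2, h3⟩ := hC N M hM hN
  refine ⟨fun t ht => h1 t (by convert ht), fun k hk => ?_, fun n q => ?_⟩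
  · convert h2 k hk
  · convert h3 n q

end Pool.Agent.Results.MP_788af2_nt.PrimeTwistMoments
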