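import Mathlib
import Pool.Agent.Y668.Fin

/-!
# Moments of the ranks of quartic twists

Let `D ∈ ℤ[t]` be a nonzero polynomial such that no irreducible factor of `D` has multiplicity
`2 mod 4`. Then all the moments of `2 ^ rank` over the curves `y² = x³ + D(t) x`, `t` in any interval
of length `M` of polynomial height, are bounded (`result`). For example all the curves `y² = x³ + A x`, `A` in
short intervals: these are, up to isomorphism, all the elliptic curves over `ℚ` with `j = 1728`. So
the number of the `A` with `0 < |A| ≤ H` such that the rank of `y² = x³ + A x` is at least `r` is at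
most `C H / 2 ^ (k r)` for every `k`, uniformly in `H` and `r` (`all_curves`).
-/

namespace Pool.Agent.Results.MP_788af2_nt.QuarticTwistMoments

open Finset Polynomial

/-- the curve `y² = x³ + A x` over `ℚ` -/
def E (A : ℤ) : WeierstrassCurve ℚ := ⟨0, 0, 0, (A : ℚ), 0⟩

/-- the Mordell-Weil rank of `y² = x³ + A x` -/
noncomputable def rank (A : ℤ) : ℕ := Module.finrank ℤ (E A).toAffine.Point

/-- **Theorem.** Let `D ≠ 0` be a polynomial such that no irreducible factor of `D` has multiplicity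
`2 mod 4`. Then all the moments of `2 ^ rank` are bounded over the curves `y² = x³ + D(t) x`, `t` in
short intervals. -/
theorem result (D : ℤ[X]) (hD : D ≠ 0)
    (h : ∀ f : ℚ[X], Irreducible f → multiplicity f (D.map (Int.castRingHom ℚ)) % 4 ≠ 2)
    (k L : ℕ) :
    ∃ c : ℝ, ∀ (N : ℤ) (M : ℕ), 1 ≤ M → |N| ≤ (M : ℤ) ^ L →
      ∑ t ∈ (Ioc N (N + M)).filter (fun t => D.eval t ≠ 0),
        ((2 : ℝ) ^ rank (D.eval t)) ^ k ≤ c * M := by
  have e : ∀ A : ℤ, rank A = Module.finrank ℤ (Pool.Agent.Y668.W2 0 A).toAffine.Point := by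
    intro A
    unfold rank E Pool.Agent.Y668.W2
    rw [Int.cast_zero]
  obtain ⟨c, hc⟩ := Pool.Agent.Y668.quart_moments D hD h k L
  refine ⟨c, fun N M hM hN => le_trans (le_of_eq (sum_congr rfl fun t _ => ?_)) (hc N M hM hN)⟩
  rw [e]

/-- The case `D = t`: the proportion of the curves `y² = x³ + A x` of rank at least `r` is at most
`c / 2 ^ (k r)`, uniformly in the range and in `r`. -/
theorem all_curves (k : ℕ) : ∃ c : ℝ, ∀ H r : ℕ, 1 ≤ H →
    ((((Icc (-(H : ℤ)) H).filter (fun A => A ≠ 0 ∧ r ≤ rank A)).card : ℝ) / (2 * H)) ≤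
      c / (2 : ℝ) ^ (k * r) := by
  obtain ⟨c, hc⟩ := result X X_ne_zero (by
    intro f hf h2
    rw [Polynomial.map_X] at h2
    have h3 : f ^ 2 ∣ (X : ℚ[X]) := (pow_dvd_pow f (by omega)).trans (pow_multiplicity_dvd f X)
    exact hf.not_isUnit (irreducible_X.squarefree f (by rwa [← sq]))) k 1
  simp only [eval_X] at hc
  refine ⟨2 * c, fun H r hH => ?_⟩
  have hH' : (1 : ℝ) ≤ H := by exact_mod_cast hH
  have h3 := hc (-(H : ℤ) - 1) (2 * H + 1) (by omega) (by
    rw [pow_one, abs_le]
    constructor <;> push_cast <;> linarith)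
  have hc0 : 0 ≤ c := by
    have h4 := hc 0 1 le_rfl (by simp)
    have h5 : (0 : ℝ) ≤ ∑ d ∈ (Ioc (0 : ℤ) (0 + (1 : ℕ))).filter (fun d => d ≠ 0),
        ((2 : ℝ) ^ rank d) ^ k := sum_nonneg fun d _ => by positivity
    have h6 := h5.trans h4
    simpa using h6
  have h4 : ((((Icc (-(H : ℤ)) H).filter (fun A => A ≠ 0 ∧ r ≤ rank A)).card : ℝ)) *
      (2 : ℝ) ^ (k * r) ≤ c * ((2 * H + 1 : ℕ) : ℝ) := by
    refine le_trans ?_ h3
    rw [← nsmul_eq_mul, ← sum_const]
    refine (sum_le_sum (fun d hd => ?_)).trans (sum_le_sum_of_subset_of_nonneg ?_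
      (fun d _ _ => by positivity))
    · rw [mem_filter] at hd
      rw [mul_comm k r, pow_mul]
      exact pow_le_pow_left₀ (by positivity)
        (pow_le_pow_right₀ (by norm_num) hd.2.2) k
    · intro d hd
      rw [mem_filter, mem_Icc] at hd
      rw [mem_filter, mem_Ioc]
      refine ⟨⟨by linarith [hd.1.1], ?_⟩, hd.2.1⟩
      push_cast
      linarith [hd.1.2]
  rw [div_le_div_iff₀ (by positivity) (by positivity)]
  refine h4.trans ?_
  push_cast
  nlinarith

end Pool.Agent.Results.MP_788af2_nt.QuarticTwistMoments
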