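import Mathlib
import Pool.Agent.TH841.NO.Fin

/-!
# The normal order of the 2-isogeny Selmer rank, for curves of bounded rank

`E : y² = x³ + a x² + b x`, `a = -(A + B)`, `b = A B`, that is `y² = x (x - A) (x - B)`. The descent by
the isogeny `E → E' : y² = x³ - 2 a x² + (a² - 4 b) x` bounds the rank of `E` by
`s = log₂ #Sel(a, b) + log₂ #Sel(-2 a, a² - 4 b) - 2`. For almost all the members of the one-parameter
families below, and for almost all coprime pairs, the rank of `E` is bounded and `s` has the normal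
order `κ log log`.
-/

set_option autoImplicit false

namespace Pool.Agent.Results.MP_788af2_nt.SelmerNormalOrder

open Finset Polynomial

/-- the curve `y² = x³ + a x² + b x` over `ℚ` -/
def E (a b : ℤ) : WeierstrassCurve ℚ := ⟨0, (a : ℚ), 0, (b : ℚ), 0⟩

/-- the rank of the group of the rational points -/
noncomputable def rk (W : WeierstrassCurve ℚ) : ℕ := Module.finrank ℤ W.toAffine.Point

/-- the curve `N² = b₁ M⁴ + a M² e² + (b / b₁) e⁴` has a point over `K` with `(M, e) ≠ (0, 0)` -/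
def Solvable (K : Type) [Field K] (a b b₁ : ℤ) : Prop := ∃ N M e : K, (M ≠ 0 ∨ e ≠ 0) ∧
  N ^ 2 = (b₁ : K) * M ^ 4 + (a : K) * M ^ 2 * e ^ 2 + ((b / b₁ : ℤ) : K) * e ^ 4

/-- the Selmer group of the isogeny, as a set of squarefree integers: the squarefree `b₁ ∣ b` for
which `N² = b₁ M⁴ + a M² e² + (b / b₁) e⁴` has points everywhere locally -/
def Sel (a b : ℤ) : Set ℤ := {b₁ | Squarefree b₁ ∧ b₁ ∣ b ∧ Solvable ℝ a b b₁ ∧
  ∀ (p : ℕ) [Fact p.Prime], Solvable ℚ_[p] a b b₁}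

/-- the bound for the rank of `y² = x³ + a x² + b x` given by the descent by the two isogenies of
degree two -/
noncomputable def s (a b : ℤ) : ℝ :=
  Real.logb 2 ((Sel a b).ncard : ℝ) + Real.logb 2 ((Sel (-2 * a) (a ^ 2 - 4 * b)).ncard : ℝ) - 2

/-- `u_k = a_k ∏ f_{k,i}` -/
noncomputable def u {n : Fin 3 → ℕ} (a : Fin 3 → ℤ) (f : ∀ k : Fin 3, Fin (n k) → ℤ[X])
    (k : Fin 3) : ℤ[X] := C (a k) * ∏ i, f k i

/-- `D = c ∏ g_i` -/
noncomputable def D {m : ℕ} (c : ℤ) (g : Fin m → ℤ[X]) : ℤ[X] := C c * ∏ i, g i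

/-- `v` is a square modulo `f` in `ℚ[t]` -/
def SqMod (f v : ℤ[X]) : Prop := ∃ q : ℚ[X], f.map (Int.castRingHom ℚ) ∣
  (q ^ 2 - v.map (Int.castRingHom ℚ))

/-- `- D u₁`, `- D u₀`, `D u₀` -/
noncomputable def v {n : Fin 3 → ℕ} {m : ℕ} (a : Fin 3 → ℤ) (f : ∀ k : Fin 3, Fin (n k) → ℤ[X])
    (c : ℤ) (g : Fin m → ℤ[X]) : Fin 3 → ℤ[X] :=
  ![-(D c g * u a f 1), -(D c g * u a f 0), D c g * u a f 0]

open Classical in
/-- the constant `κ = n₀ + n₁ - (n₂ + s₂) / 2 + r / 2`, where `s₂` is the number of the factors of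
`u₂` modulo which `D u₀` is a square, and `r` the number of the `g_i` modulo which `u₀ u₁` is not
a square -/
noncomputable def κ {n : Fin 3 → ℕ} {m : ℕ} (a : Fin 3 → ℤ) (f : ∀ k : Fin 3, Fin (n k) → ℤ[X])
    (c : ℤ) (g : Fin m → ℤ[X]) : ℝ :=
  (n 0 : ℝ) + n 1 -
    ((n 2 : ℝ) + (univ.filter (fun i => SqMod (f 2 i) (D c g * u a f 0))).card) / 2 +
    ((univ.filter (fun i => ¬ SqMod (g i) (u a f 0 * u a f 1))).card : ℝ) / 2

open Classical in
/-- the balance condition: `2 n_k + s_k ≤ n₀ + n₁ + n₂` for all `k`, where `s_k` is the number of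
the factors `f_{k,i}` modulo which `v_k` is a square -/
def Balanced {n : Fin 3 → ℕ} {m : ℕ} (a : Fin 3 → ℤ) (f : ∀ k : Fin 3, Fin (n k) → ℤ[X])
    (c : ℤ) (g : Fin m → ℤ[X]) : Prop :=
  ∀ k, 2 * n k + (univ.filter (fun i => SqMod (f k i) (v a f c g k))).card ≤ n 0 + n 1 + n 2

/-- the conclusion for the curve `y² = x (x - A) (x - B)`: nonsingular, rank at most `R`, one of the
two Selmer groups of order at most `R`, and `s` is within `η` of `x` -/
def Good (A B : ℤ) (R : ℕ) (x η : ℝ) : Prop :=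
  A ≠ 0 ∧ B ≠ 0 ∧ A ≠ B ∧ rk (E (-(A + B)) (A * B)) ≤ R ∧
    (Sel (-2 * -(A + B)) ((-(A + B)) ^ 2 - 4 * (A * B))).ncard ≤ R ∧
    |s (-(A + B)) (A * B) - x| ≤ η

lemma log_near (n : ℕ) : (Nat.log 2 n : ℝ) ≤ Real.logb 2 (n : ℝ) ∧
    Real.logb 2 (n : ℝ) ≤ (Nat.log 2 n : ℝ) + 1 := by
  rcases Nat.eq_zero_or_pos n with rfl | h
  · simp
  · have h0 : (0 : ℝ) < n := by exact_mod_cast h
    have h2 : (1 : ℝ) < 2 := one_lt_two
    constructor
    · rw [Real.le_logb_iff_rpow_le h2 h0, Real.rpow_natCast]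
      exact_mod_cast Nat.pow_log_le_self 2 h.ne'
    · have h1 : (n : ℝ) ≤ (2 : ℝ) ^ (Nat.log 2 n + 1) := by
        exact_mod_cast (Nat.lt_pow_succ_log_self (by norm_num) n).le
      rw [Real.logb_le_iff_le_rpow h2 h0]
      calc (n : ℝ) ≤ (2 : ℝ) ^ (Nat.log 2 n + 1) := h1
        _ = (2 : ℝ) ^ ((Nat.log 2 n : ℝ) + 1) := by
            rw [← Real.rpow_natCast]
            push_cast
            rfl

lemma good_of {A B : ℤ} {R : ℕ} {x η : ℝ} (h : A ≠ 0 ∧ B ≠ 0 ∧ A ≠ B ∧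
    Pool.Agent.TH841.SH.D.rk (Pool.Agent.TH841.NO.Cu (-(A + B)) (A * B)) ≤ R ∧
    Pool.Agent.TH841.NO.fo (-2 * -(A + B)) ((-(A + B)) ^ 2 - 4 * (A * B)) ≤ R ∧
    |(Pool.Agent.TH841.NO.sr (-(A + B)) (A * B) : ℝ) - x| ≤ η) :
    Good A B (2 ^ (R + 1)) x (η + 2) := by
  obtain ⟨h1, h2, h3, h4, h5, h6⟩ := h
  refine ⟨h1, h2, h3, h4.trans ?_, ?_, ?_⟩
  · exact (Nat.lt_two_pow_self (n := R)).le.trans (Nat.pow_le_pow_right (by norm_num) (by omega))
  · have h7 := Nat.lt_pow_succ_log_self (b := 2) (by norm_num)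
      (Sel (-2 * -(A + B)) ((-(A + B)) ^ 2 - 4 * (A * B))).ncard
    refine h7.le.trans (Nat.pow_le_pow_right (by norm_num) ?_)
    exact Nat.succ_le_succ h5
  · have e1 := log_near (Sel (-(A + B)) (A * B)).ncard
    have e2 := log_near (Sel (-2 * -(A + B)) ((-(A + B)) ^ 2 - 4 * (A * B))).ncard
    have e3 : (Pool.Agent.TH841.NO.sr (-(A + B)) (A * B) : ℝ) =
        (Nat.log 2 (Sel (-(A + B)) (A * B)).ncard : ℝ) +
        (Nat.log 2 (Sel (-2 * -(A + B)) ((-(A + B)) ^ 2 - 4 * (A * B))).ncard : ℝ) - 2 := by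
      unfold Pool.Agent.TH841.NO.sr Pool.Agent.TH841.NO.fo
      push_cast
      rfl
    rw [e3] at h6
    unfold s
    rw [abs_le] at h6 ⊢
    obtain ⟨k1, k2⟩ := h6
    constructor <;> linarith [e1.1, e1.2, e2.1, e2.2]

lemma Good.mono {A B : ℤ} {R : ℕ} {x η η' : ℝ} (h : Good A B R x η) (hη : η ≤ η') :
    Good A B R x η' :=
  ⟨h.1, h.2.1, h.2.2.1, h.2.2.2.1, h.2.2.2.2.1, h.2.2.2.2.2.trans hη⟩

open Classical in
/-- **Theorem.** (1) Let `u_k = a_k ∏_{i < n_k} f_{k,i}`, `k = 0, 1, 2`, with `u₀ - u₁ = u₂`, and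
`D = c ∏_{i < m} g_i`, where `a_k`, `c` are nonzero and the `n₀ + n₁ + n₂ + m` polynomials
`f_{k,i}`, `g_i` with integer coefficients are irreducible of positive degree and pairwise
non-associated; assume `2 n_k < n₀ + n₁ + n₂` for all `k`, or the balance condition. For all
`δ, ε > 0` and `L` there are `R` and `M₀` such that for `M ≥ M₀`, `|N| ≤ M ^ L` and for all
`N < t ≤ N + M` with at most `ε M` exceptions, with `A = (D u₀)(t)`, `B = (D u₁)(t)`: the curve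
`y² = x (x - A) (x - B)` is nonsingular and has rank at most `R`, and
`|s - κ log log M| ≤ δ log log M`, where `s` is the bound for the rank given by the 2-isogenies.
(2) For every nonzero `d` the same holds for `A = d x`, `B = d y` and the coprime pairs `(x, y)`,
`N₁ < x ≤ N₁ + X`, `N₂ < y ≤ N₂ + X` with at most `ε X²` exceptions, with `κ = 3 / 2`, for
`|N₁|, |N₂| ≤ X ^ L`, `X ≥ X₀`. -/
theorem result :
    (∀ (n : Fin 3 → ℕ) (m : ℕ) (a : Fin 3 → ℤ) (f : ∀ k : Fin 3, Fin (n k) → ℤ[X])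
    (c : ℤ) (g : Fin m → ℤ[X]) (_ : ∀ k, a k ≠ 0) (_ : c ≠ 0)
    (_ : ∀ k i, Irreducible (f k i) ∧ 0 < (f k i).natDegree)
    (_ : ∀ i, Irreducible (g i) ∧ 0 < (g i).natDegree)
    (_ : ∀ k i l j, (⟨k, i⟩ : Σ k : Fin 3, Fin (n k)) ≠ ⟨l, j⟩ → ¬ Associated (f k i) (f l j))
    (_ : ∀ i j, i ≠ j → ¬ Associated (g i) (g j)) (_ : ∀ k i j, ¬ Associated (f k i) (g j))
    (_ : u a f 0 - u a f 1 = u a f 2)
    (_ : (∀ k, 2 * n k < n 0 + n 1 + n 2) ∨ Balanced a f c g)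
    (δ ε : ℝ) (L : ℕ) (_ : 0 < δ) (_ : 0 < ε),
    ∃ R M₀ : ℕ, ∀ (N : ℤ) (M : ℕ), M₀ ≤ M → |N| ≤ (M : ℤ) ^ L →
      (((Ioc N (N + (M : ℤ))).filter (fun t => ¬ Good ((D c g * u a f 0).eval t)
        ((D c g * u a f 1).eval t) R (κ a f c g * Real.log (Real.log M))
        (δ * Real.log (Real.log M)))).card : ℝ) ≤ ε * M) ∧
    (∀ d : ℤ, d ≠ 0 → ∀ (δ ε : ℝ) (L : ℕ), 0 < δ → 0 < ε →
    ∃ R X₀ : ℕ, ∀ (N₁ N₂ : ℤ) (X : ℕ), X₀ ≤ X → |N₁| ≤ (X : ℤ) ^ L → |N₂| ≤ (X : ℤ) ^ L →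
      (((Ioc N₁ (N₁ + (X : ℤ)) ×ˢ Ioc N₂ (N₂ + (X : ℤ))).filter (fun t : ℤ × ℤ =>
        IsCoprime t.1 t.2 ∧ ¬ Good (d * t.1) (d * t.2) R (3 / 2 * Real.log (Real.log X))
        (δ * Real.log (Real.log X)))).card : ℝ) ≤ ε * X ^ 2) := by
  refine ⟨?_, ?_⟩
  · intro n m a f c g ha hc hf hg hff hgg hfg hu hb δ ε L hδ hε
    have hirr : Pool.Agent.TH841.PT.Irr (Pool.Agent.TH841.TR.allf g f) := by
      refine ⟨?_, ?_, ?_⟩
      · rintro (x | i)
        · exact (hf x.1 x.2).1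
        · exact (hg i).1
      · rintro (x | i)
        · exact (hf x.1 x.2).2
        · exact (hg i).2
      · rintro (x | i) (y | j) hxy
        · exact hff x.1 x.2 y.1 y.2 (fun h => hxy (congrArg Sum.inl h))
        · exact hfg x.1 x.2 j
        · exact fun h => hfg y.1 y.2 i h.symm
        · exact hgg i j (fun h => hxy (congrArg Sum.inr h))
    have hbal : (∀ k, 2 * n k < n 0 + n 1 + n 2) ∨
        Pool.Agent.TH841.TR.Bal (Pool.Agent.TH841.LS.DG c g) a f :=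
      hb.imp_right fun hb => Pool.Agent.TH841.TR.bal_of (v := v a f c g) rfl rfl rfl fun k => hb k
    obtain ⟨R, M1, h1⟩ := Pool.Agent.TH841.NO.final a f c g ha hc hirr hu hbal (δ / 2) ε L
      (by positivity) hε
    obtain ⟨M2, h2⟩ := Pool.Agent.TH841.LS.big_loglog (δ / 2) 2 (by positivity)
    refine ⟨2 ^ (R + 1), M1 + M2, fun N M hM hN => le_trans ?_ (h1 N M (by omega) hN)⟩
    have h3 := h2 M (by omega)
    refine Nat.cast_le.2 (card_le_card ?_)
    intro t ht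
    rw [mem_filter] at ht ⊢
    refine ⟨ht.1, fun ht' => ht.2 ?_⟩
    exact (good_of (ht' _ _ rfl rfl)).mono (by linarith)
  · intro d hd δ ε L hδ hε
    obtain ⟨R, X1, h1⟩ := Pool.Agent.TH841.NO.final2 d hd (δ / 2) ε L (by positivity) hε
    obtain ⟨X2, h2⟩ := Pool.Agent.TH841.LS.big_loglog (δ / 2) 2 (by positivity)
    refine ⟨2 ^ (R + 1), X1 + X2, fun N₁ N₂ X hX hN₁ hN₂ => le_trans ?_
      (h1 N₁ N₂ X (by omega) ?_ ?_)⟩
    · have h3 := h2 X (by omega)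
      refine Nat.cast_le.2 ?_
      refine card_le_card_of_injOn (fun t : ℤ × ℤ => ((t.1 - N₁).toNat, (t.2 - N₂).toNat)) ?_ ?_
      · intro t ht
        rw [mem_coe, mem_filter, mem_product, mem_Ioc, mem_Ioc] at ht
        obtain ⟨⟨⟨a1, a2⟩, a3, a4⟩, a5, a6⟩ := ht
        rw [mem_coe, mem_filter, mem_product, mem_Icc, mem_Icc]
        have b1 : N₁ + (((t.1 - N₁).toNat : ℕ) : ℤ) = t.1 := by
          rw [Int.toNat_of_nonneg (by omega)]
          ring
        have b2 : N₂ + (((t.2 - N₂).toNat : ℕ) : ℤ) = t.2 := by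
          rw [Int.toNat_of_nonneg (by omega)]
          ring
        refine ⟨⟨⟨by simp only; omega, by simp only; omega⟩, by simp only; omega,
          by simp only; omega⟩, ?_, ?_⟩
        · simp only [b1, b2]
          exact a5
        · intro h'
          simp only [b1, b2] at h'
          exact a6 ((good_of (h' _ _ rfl rfl)).mono (by linarith))
      · intro t ht t' ht' h
        rw [mem_coe, mem_filter, mem_product, mem_Ioc, mem_Ioc] at ht ht'
        simp only [Prod.mk.injEq] at h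
        obtain ⟨⟨⟨a1, a2⟩, a3, a4⟩, -⟩ := ht
        obtain ⟨⟨⟨b1, b2⟩, b3, b4⟩, -⟩ := ht'
        obtain ⟨h4, h5⟩ := h
        refine Prod.ext ?_ ?_ <;> omega
    · zify
      exact hN₁
    · zify
      exact hN₂

end Pool.Agent.Results.MP_788af2_nt.SelmerNormalOrder
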